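import Pool.Agent.P.MP_d66c6d_pr.Z.All2

namespace Pool.Agent.Results.MP_d66c6d_pr.Full

open MeasureTheory Set Filter Topology Pool.Agent.P.MP_d66c6d_pr

/-- The distance exponent `θ(κ)` of the `CLE_κ` carpet is continuous and strictly increasing on
`(8/3, 4)` and tends to `1` as `κ ↓ 8/3`. -/
theorem result (ν : Measure Br) (hν : IsBridge ν) (Ω : ℝ → Type) [∀ κ, MeasurableSpace (Ω κ)]
    [∀ κ, StandardBorelSpace (Ω κ)] (P : ∀ κ, Measure (Ω κ)) (Γ : ∀ κ, Ω κ → Set (Set ℂ))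
    (θ : ℝ → ℝ) (hΓ : ∀ κ ∈ Ioo (8 / 3 : ℝ) 4, IsPlaneCLE ν κ (P κ) (Γ κ))
    (hθ : ∀ κ ∈ Ioo (8 / 3 : ℝ) 4, IsLimitExp (P κ) (fun ω => firstCarpet (Γ κ ω)) (θ κ)) :
    ContinuousOn θ (Ioo (8 / 3) 4) ∧ StrictMonoOn θ (Ioo (8 / 3) 4) ∧
      Tendsto θ (𝓝[>] (8 / 3)) (𝓝 1) :=
  al2_MAIN2 ν hν Ω P Γ θ hΓ hθ

end Pool.Agent.Results.MP_d66c6d_pr.Full
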